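import Mathlib
import Pool.Agent.TH170.GS.Main
import Pool.Agent.TH170.GS.TB2
import Pool.Agent.Y1.KN.All
import Pool.Agent.Y1.KN.Use
import Pool.Agent.R900.PT.NCHom

/-!
# The noncommutative standard conjecture of type D for dg categories generated by abelian varieties with
# almost all slope types of all CM fields

An abelian variety over the field with `p ^ a` elements is modelled by `RedAV` (Honda, Tate): a
finite product of CM types `(E i, Φ i)` with Weil numbers `π i ∈ E i` that satisfy the formula of
Shimura and Taniyama; its cohomology of degree `n`, with coefficients in an algebraically closed field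
`Ω`, consists of the alternating `n`-forms on `Ω ⊗ H_1`, on which the Frobenius endomorphism acts by
`π`. We fix an isomorphism `ν` of the algebraic closure of `ℚ_p` with `ℂ`; it defines a `p`-adic
valuation of `ℂ`, with the value one at `p`.

Let `K i` be finitely many CM fields, of degrees `2 g i`, that are pairwise independent: for `i ≠ k`
and all complex embeddings `φ` of `K i` and `ψ` of `K k` some automorphism of `ℂ` is the identity on
`φ (K i)` and the complex conjugation on `ψ (K k)` (this is no condition for one field). Nothing is
assumed about their Galois groups. Let `M i` be functions with nonzero integral values, all of which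
divide `n i`, on the complex embeddings of `K i`, invariant under complex conjugation. A CM type
`Φ i` of `K i` (there are `2 ^ (g i)` types), `M i` and a real number `κ i ≠ 0` prescribe the slopes
`(a + κ M) / 2` (at the embeddings in `Φ i`) and `(a - κ M) / 2` (outside of `Φ i`) of a Weil number in
`K i`; `M = 1`, `κ = a` is the ordinary case.

There are `2 ^ (∑ i, g i)` families of CM types `Φ i` of the fields `K i`. For such a family let `𝒞`
(`OfTypes`) be the class of the abelian varieties `Y` each of whose factors is supersingular or has a
Frobenius endomorphism some power of which is, for some `i`, a Weil number in `K i` with the slopes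
prescribed by `Φ i`, `M i` and some real number `κ i ≠ 0` (which depends only on `Y` and `i`).

`Homology Ω V` are data of motivic homology `M X n j = H_n^M(X, ℚ(j)) = CH_j(X, n - 2 j) ⊗ ℚ` (higher
Chow groups) and of `ℓ`-adic homology `E X n j = H_n(X, ℚ_ℓ(j))` of schemes `X : V` of finite type over
finite fields, with the Frobenius and the regulator. Let `𝒢` (`Generated`) be the smallest class of
schemes that contains those with the homology groups of abelian varieties in `𝒞`
(`IsAbelianOfTypes`), that is closed under direct summands of finite sums of twists of motives, and
that contains all of a closed subscheme `Z` of `X`, `X` and `X ∖ Z` if it contains two of them. It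
contains for instance all products of curves with Jacobian varieties in `𝒞` and of open subsets of such
curves, and their symmetric powers.

Let `𝒟` (`EulerGenerated`) be the smallest class of dg categories that contains the categories
`perf_dg(X)` for all smooth and projective `X` in `𝒢`, and all dg categories whose noncommutative motives
with rational coefficients are direct summands of finite sums of motives of members of `𝒟`. The maps of
Grothendieck groups of such a decomposition have adjoints with respect to the Euler pairings. It
contains, for instance, with such an `X`, the dg categories of the perfect complexes over sheaves of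
Azumaya algebras on `X`, all dg categories with semiorthogonal decompositions into members of `𝒟` (root
stacks, blow-ups, families of quadrics, finite-dimensional algebras of finite global dimension), and all
components of such decompositions of members.

A family of types is exceptional (`exceptionalFamilies ν K M`) if the following fails (`Holds`): for all
`A` in `𝒟` (over a finite field) homological and numerical equivalence on `K_0(A)_ℚ` agree (`HomIsNum`):
`c(x) = 0` if and only if `χ(x, y) = 0` for all `y`. Moreover both are trivial: such an `x` is a torsion
element.

Here `c : K_0(A) → TP_+(A)_(1 / p)` is the cycle class map of which we only use that it is additive, with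
values in a rational vector space, and that `c(x) = 0` implies that `x` is numerically trivial
(`IsCycleClass`). For `A = perf_dg(X)` the Euler pairing on `K_0(X)` is given by the Chern character, the
Todd class and the duality pairing, by the theorem of Hirzebruch, Riemann and Roch (`IsPerfEuler`).

The theorem bounds the number of the exceptional families: it is at most
`2 ^ (∑ i, g i) * ∑ i, C * (n i) ^ 2 * rate (K i) (g i) (q i)`, with an absolute constant `C`. Here
`q i` is any prime factor of `g i` (or `q i = 1`), and `rate K g q` is `(1 + log (2 g)) ^ 16` times
the smaller of the numbers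

* `W (K) / √g`, where (second part of the theorem, `WeightEstimate`) `W (K) ≤ N ^ 2 * D ^ (1 / 4)`;
  `N` is the number of the CM subfields of `K` (with `K`) and `D` is the largest degree of a CM
  subfield of `K` that is normal over `ℚ` with a nonabelian Galois group (`D = 1` if there are none);
* `√g / q`.

So the exceptional types are a proportion `O (n ^ 2 * g ^ (-1 / 4) * (log g) ^ 16)` of all types of
all CM fields with a bounded number of CM subfields, and `O (n ^ 2 * g ^ (-δ) * (log g) ^ 16)` of the
types of all CM fields `K`, with any number of subfields, whose degree is divisible by a prime number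
`q ≥ g ^ (1 / 2 + δ)`. For the number `W (K)` (`subfieldWeight K`) and the proof of the bound see the
starting result `MP_ee618e_ag.AllCMFields` (by helper1 and others of the team).

Properties of the theory of cycles that are used for the abelian varieties (`IsChow`, `IsMotivic`):
Poincaré duality, the formal properties of correspondences, the nilpotence of homologically trivial
correspondences (Kimura), the operation of the Frobenius endomorphism on higher Chow groups, the
vanishing of the higher rational `K`-groups of a finite field (Quillen), and the theorem of Tate on
divisors. The passage from the Tate conjecture to all degrees and to the class `𝒢` is due to Soulé,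
Geisser, Kahn and Jannsen and was formalized in the starting files.
-/

set_option autoImplicit false

namespace Pool.Agent.Results.MP_28af06_ag.AllCMFields

open NumberField Module Pool.Agent.H204R3.CM Pool.Agent.H977R3.CM Pool.Agent.TH170 Pool.Agent.Y1.KN
  Pool.Agent.W495.TA Pool.Agent.W495.FM Pool.Agent.R900.PT

/-- The noncommutative standard conjecture of type D for all dg categories generated by smooth and
projective schemes generated by abelian varieties with the slope types `Φ`. -/
def Holds {p : ℕ} [Fact p.Prime] (ν : PadicAlgCl p ≃+* ℂ) {I : Type} (K : I → Type)
    [∀ i, Field (K i)] (M : ∀ i, (K i →+* ℂ) → ℤ) (Φ : ∀ i, Set (K i →+* ℂ)) : Prop :=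
  ∀ (Ω : Type) [Field Ω] [IsAlgClosed Ω] [CharZero Ω] (V : Type) (T : Homology Ω V),
    IsHomology T → ∀ (D : Type) (KD : D → Type) [∀ A, AddCommGroup (KD A)]
      (χ : ∀ A, KD A → KD A → ℤ) (A : D),
      EulerGenerated KD χ
        (fun A => IsPerfEuler T (Generated T (GS.IsAbelianOfTypes ν K M Φ T)) (χ A)) A →
        ∀ (H : Type) [AddCommGroup H] [Module ℚ H] (c : KD A → H), IsCycleClass (χ A) c →
          HomIsNum (χ A) c

/-- The exceptional families of CM types. -/
def exceptionalFamilies {p : ℕ} [Fact p.Prime] (ν : PadicAlgCl p ≃+* ℂ) {I : Type} (K : I → Type)
    [∀ i, Field (K i)] (M : ∀ i, (K i →+* ℂ) → ℤ) : Set (∀ i, Set (K i →+* ℂ)) :=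
  {Φ | (∀ i, IsCMType (Φ i)) ∧ ¬ Holds ν K M Φ}

theorem holds_of {p : ℕ} [Fact p.Prime] {ν : PadicAlgCl p ≃+* ℂ} {I : Type} (K : I → Type)
    [∀ i, Field (K i)] (M : ∀ i, (K i →+* ℂ) → ℤ) (Φ : ∀ i, Set (K i →+* ℂ))
    (h : ∀ Y : RedAV p ν, GS.OfTypes K M Φ Y → ∃ Z : RedAV p ν,
      TH117.BL.HasElementaryRelations Z ∧ TH117.BL.IsPowersTimesSupersingular Z Y) :
    Holds ν K M Φ :=
  fun _ _ _ _ _ _ hT _ _ _ _ _ hA _ _ _ _ hc =>
    hom_is_num (nc_beilinson hT (fun _ hX => GS.tb_types h hT hX) hA) hc

/-- **The noncommutative standard conjecture of type D for all dg categories generated by smooth and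
projective schemes generated by abelian varieties with almost all slope types of all CM fields with few
CM subfields, and of all CM fields whose degree has a large prime factor.** -/
theorem result :
    (∃ C : ℝ, 0 ≤ C ∧ ∀ (p : ℕ) [Fact p.Prime] (ν : PadicAlgCl p ≃+* ℂ) (I : Type) [Fintype I]
      (K : I → Type) [∀ i, Field (K i)] [∀ i, NumberField (K i)] [∀ i, IsCMField (K i)]
      (M : ∀ i, (K i →+* ℂ) → ℤ) (n g q : I → ℕ), PairwiseIndep K →
      (∀ i φ, M i (ComplexEmbedding.conjugate φ) = M i φ) → (∀ i, n i ≠ 0) →
      (∀ i φ, M i φ ∣ (n i : ℤ)) → (∀ i, finrank ℚ (K i) = 2 * g i) →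
      (∀ i, q i ∣ g i ∧ (q i = 1 ∨ (q i).Prime)) →
      ((exceptionalFamilies ν K M).ncard : ℝ) ≤
        2 ^ (∑ i, g i) * ∑ i, C * (n i : ℝ) ^ 2 * rate (K i) (g i) (q i)) ∧
    WeightEstimate := by
  obtain ⟨C, hC0, hC⟩ := slope families_holds
  refine ⟨⟨C, hC0, ?_⟩, weight_estimate_holds⟩
  intro p _ ν I _ K _ _ _ M n g q hind hM hn hMn hg hq
  exact hC p ν I K M n g q hind hM hn hMn hg hq _ fun Φ h => holds_of K M Φ h

end Pool.Agent.Results.MP_28af06_ag.AllCMFields
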