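import Pool.Agent.R936.Sm.Ncd

/-!
# The noncommutative standard conjecture of type D: factors of CM type

Let `X i`, `i ∈ I`, be a family (finite or infinite) of smooth projective varieties of CM type over a
subfield of the complex numbers (for instance of abelian varieties with complex multiplication by
subfields of one CM field) and suppose that the Hodge group of the sum of the Hodge structures `H(X i)`
is of dimension at most `R`, and that the Hodge conjecture holds for the products in which at most
`R + 1` different members occur.

Let `𝒞` be an admissible subcategory of `D(Z)`, `Z` any smooth projective variety. The projection to `𝒞`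
is given by a kernel on `Z × Z` with the Mukai vector `γ`, an algebraic class, and the projection of
`D(Z × P)` to `𝒞 ⊠ D(P)` by the product with the diagonal of `P`. The classes of the elements of
`K₀(𝒞 ⊠ D(P)) ⊗ ℚ` in (periodic cyclic or singular) homology are the classes `γ ∘ c`, `c` an algebraic
class on `Z × P`, and an element of `K₀(𝒞 ⊠ D(P))` is numerically trivial if and only if it is
numerically trivial in `K₀(Z × P)` (use the adjoints of the inclusion), so that `NcD γ P` is the
noncommutative standard conjecture D for `𝒞 ⊠ D(P)`. Since `HH_i(𝒞)` is the sum of the images under `γ`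
of the spaces `H^(p,q)(Z)` with `p - q = i`, the condition `LevelLe γ ℓ` says that `HH_i(𝒞) = 0` for
`|i| > ℓ`.

*Theorem.* There is one product `Y` of members of the family such that, for every `ℓ` and for every
admissible subcategory `𝒞` of the category `D(Z)` of a smooth projective variety `Z` of any dimension
with `HH_i(𝒞) = 0` for `|i| > ℓ`: the standard conjecture D holds for `𝒞 ⊠ D(P)` for all products `P`
of members of the family, if and only if it holds for `𝒞 ⊠ D(Y ^ ℓ)` (for `ℓ = 0` read
`𝒞 ⊠ D(Y)`). For example one needs `Y ^ 2` for all noncommutative K3 surfaces `𝒞` and `Y` for all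
categories `𝒞` with Hochschild homology in degree zero.

*Proof.* Let `c` be an algebraic class on `Z × P` such that `γ ∘ c` is numerically trivial. Over a
splitting field `L` it is a sum of classes `z_a ⊗ w_a`, where the `w_a` form a basis of `H(P) ⊗ L` of
products of eigenvectors. If `γ(z_a)` is not zero then the differences of the Hodge types of the
conjugates of `w_a` are bounded by `ℓ`, so there is a product `b` of eigenvectors on `Y ^ ℓ` with the
same differences (`Y` is given by a lemma of Dickson type). The contractions of `c` and of `γ ∘ c` with
an algebraic class (by the Hodge conjecture for the products of members, which follows from the case of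
few different factors) are `z_a ⊗ b`, an algebraic class, and `γ(z_a) ⊗ b`, which is numerically
trivial. As the left kernel of a pairing does not change if the coefficients are extended, the conjecture
for `𝒞 ⊠ D(Y ^ ℓ)` gives `γ(z_a) ⊗ b = 0`, a contradiction.
-/

universe u w

namespace Pool.Agent.Results.MP_28af06_ag.FactorsOfCMType

open H914 Y121.AHS R936.Sm VarClass Obj WeilCohomology

/-- **The noncommutative standard conjecture D with factors of CM type**: for a family of varieties of
CM type with a Hodge group of dimension at most `R`, for which the Hodge conjecture holds for the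
products with at most `R + 1` different factors, there is one product `Y` of members such that, for every
admissible subcategory `𝒞` of `D(Z)` (with the class `γ` of the projection) whose Hochschild homology
vanishes in the degrees `i` with `|i| > ℓ`, the category `𝒞 ⊠ D(Y ^ ℓ)` decides for all categories
`𝒞 ⊠ D(P)`, `P` a product of members of the family. -/
theorem result {k : Type u} [Field k] {𝒱 : VarClass k} {ops : CycleOps 𝒱} (T : HodgeTheory ops)
    (hpos : NonnegTypes T) {I : Type w} [Nonempty I] (X : I → 𝒱.Obj)
    (hX : ∀ i, IsCM T (X i)) (R : ℕ) (hR : HgDimLe T X R)
    (h : ∀ i L, (∃ F : Finset I, F.card ≤ R + 1 ∧ ∀ j ∈ i :: L, j ∈ F) → HodgeConj T (prodOf X i L)) :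
    ∃ (i0 : I) (L0 : List I), ∀ (ℓ : ℕ) (Z : 𝒱.Obj) (γ : T.W.H (Z.prod Z)),
      IsAlg γ → LevelLe γ ℓ →
        (NcD γ (powerOf X i0 L0 ℓ) ↔ ∀ i L, NcD γ (prodOf X i L)) :=
  ncd_main hpos hX hR h

end Pool.Agent.Results.MP_28af06_ag.FactorsOfCMType
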