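import Pool.Agent.R900.EX.Fermat
import Pool.Agent.R900.PT.NCHom

/-!
# The noncommutative standard conjecture of type D for dg categories generated by products
# of Fermat varieties over finite fields

Let `m` be prime to the prime `p`. We call the degree `m` good for `p` (`GoodDegree`) if

* all prime divisors of `m` lie in `{2, 3, 5}`, or all in `{2, 3, 7}`, or all in `{2, q}` for a prime
  `q` congruent to seven modulo eight, or `4` does not divide `m` and all lie in `{2, 3, 11}`, or all
  in `{2, 3, 13}`; here `p` is any prime that does not divide `m`; or
* `m = u v`, or `m = 2 u v` with odd `u v`, where `u`, `v` are powers of two different primes and `-1`
  is a power of `p` modulo `u` and modulo `v`, but not necessarily modulo `m`; or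
* `p` and the odd primes dividing `m` are squares modulo the (other) odd primes dividing `m`, with
  some conditions on orders (`Squares`); for example if `4` does not divide `m`, `p` has odd order
  modulo `m` and the odd primes dividing `m` are squares modulo each other.

`Homology Ω V` are data of motivic homology `M X n j = H_n^M(X, ℚ(j)) = CH_j(X, n - 2 j) ⊗ ℚ` (higher
Chow groups) and of `ℓ`-adic homology `E X n j = H_n(X, ℚ_ℓ(j))` of schemes `X : V` of finite type over
finite fields, with the Frobenius and the regulator. Let `𝒢` (`Generated`) be the smallest class of
schemes that contains all products of Fermat varieties `x_0 ^ m + ... + x_(n+1) ^ m = 0`, of any
dimensions, of the same degree `m` that is good for the characteristic (`IsFermat`), that is closed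
under direct summands of finite sums of twists of motives, and that contains all of a closed subscheme
`Z` of `X`, `X` and `X ∖ Z` if it contains two of them. For example, it contains the quotients of these
varieties by finite groups, the products of Fermat curves `x ^ m + y ^ m + z ^ m = 0` and of curves
dominated by them, the affine Fermat varieties and the complements of coordinate hyperplanes.

Let `𝒟` (`EulerGenerated`) be the smallest class of dg categories that contains the categories
`perf_dg(X)` for all smooth and projective `X` in `𝒢`, and all dg categories whose noncommutative motives
with rational coefficients are direct summands of finite sums of motives of members of `𝒟`. The maps of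
Grothendieck groups of such a decomposition have adjoints with respect to the Euler pairings. It
contains, for instance, with such an `X`, the dg categories of the perfect complexes over sheaves of
Azumaya algebras on `X`, all dg categories with semiorthogonal decompositions into members of `𝒟` (root
stacks, blow-ups, families of quadrics, finite-dimensional algebras of finite global dimension), and all
components of such decompositions of members.

**Theorem.** For all `A` in `𝒟` (over a finite field) homological and numerical equivalence on `K_0(A)_ℚ`
agree (`HomIsNum`): `c(x) = 0` if and only if `χ(x, y) = 0` for all `y`. Moreover both are trivial: such
an `x` is a torsion element.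

Here `c : K_0(A) → TP_+(A)_(1 / p)` is the cycle class map of which we only use that it is additive, with
values in a rational vector space, and that `c(x) = 0` implies that `x` is numerically trivial
(`IsCycleClass`). For `A = perf_dg(X)` the Euler pairing on `K_0(X)` is given by the Chern character, the
Todd class and the duality pairing, by the theorem of Hirzebruch, Riemann and Roch (`IsPerfEuler`).

Properties that are used for the products `X` of Fermat varieties. `IsCyc`: Poincaré duality, the formal
properties of correspondences, Deligne's theorem, the nilpotence of homologically trivial
correspondences (Kimura; the motive of `X` is a direct summand of a sum of twists of motives of products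
of curves by Shioda and Katsura), the operation of the Frobenius endomorphism on higher Chow groups
(Soulé) and the vanishing of the higher rational `K`-groups of a finite field (Quillen). `HasLines`: the
decomposition of the cohomology into lines labelled by multisets of residues modulo `m`, the theorem of
Stickelberger, and the algebraicity of lines whose label becomes, after raising the degree, composed of
labels of surfaces and of standard labels (Tate, Shioda, Katsura, Aoki). That the labels of all Tate
classes of good degrees are composed in this way was proved in the starting files
(`MP_021685_ag.FermatEveryCharacteristic`, `MP_950c68_ag.FermatTwoPrimes`,
`MP_0d42ed_ag.FermatEvenOrders`). The passage from there to all degrees and to the class `𝒢`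
(`tb_fermat`, in `Pool/Agent/R900/EX/Fermat.lean`) is due to Soulé, Geisser, Kahn and Jannsen.
-/

set_option autoImplicit false

namespace Pool.Agent.Results.MP_28af06_ag.FermatVarieties

open Pool.Agent.W495.FM Pool.Agent.R900.EX Pool.Agent.R900.PT

/-- The noncommutative standard conjecture of type D for the dg categories generated by the smooth and
projective members of the class generated by the products of Fermat varieties. -/
theorem result (Ω : Type) [Field Ω]
    [CharZero Ω] (V : Type) (T : Homology Ω V) (hT : IsHomology T) (D : Type)
    (K : D → Type) [∀ A, AddCommGroup (K A)] (χ : ∀ A, K A → K A → ℤ) (A : D)
    (hA : EulerGenerated K χ
      (fun A => IsPerfEuler T (Generated T (IsFermat T)) (χ A)) A)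
    (H : Type) [AddCommGroup H] [Module ℚ H] (c : K A → H) (hc : IsCycleClass (χ A) c) :
    HomIsNum (χ A) c :=
  hom_is_num (nc_beilinson hT (fun _ hX => tb_fermat hT hX) hA) hc

end Pool.Agent.Results.MP_28af06_ag.FermatVarieties
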