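import Pool.Agent.R937.PZ.Mot
import Pool.Agent.R299.NCD.Main

/-!
# The noncommutative standard conjecture of type D for dg categories generated by abelian varieties of
# dimension at most five, and by products of elliptic curves, abelian surfaces and non-ordinary threefolds, over finite fields

An abelian variety over the field with `p ^ a` elements is modelled by `RedAV` (Honda, Tate): a
finite product of CM types `(E i, Φ i)` with Weil numbers `π i ∈ E i` that satisfy the formula of
Shimura and Taniyama; its cohomology of degree `n`, with coefficients in an algebraically closed field
`Ω`, consists of the alternating `n`-forms on the Tate module `Ω ⊗ H_1`, on which the Frobenius
endomorphism acts by `π`.

We consider (`IsGoodAVP`) the abelian varieties `Y` of the following kinds: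

* all abelian varieties of dimension at most five;
* the abelian varieties that are isogenous, over an algebraic closure, to a product of a supersingular
  abelian variety of any dimension and of abelian varieties of dimension at most three (any number, any
  multiplicity), such that any two factors of dimension three whose CM fields have the same Galois
  closure satisfy one of the following: their fields are Galois over `ℚ`; one of them is supersingular;
  they are isogenous; **neither of them is ordinary and their `p`-ranks are not `{1, 2}`**.

So `Y` may be any product of elliptic curves, of abelian surfaces and of abelian threefolds that all
have `p`-rank two, or that all have `p`-rank zero or one; nonisogenous threefolds with the same CM field,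
or with different CM fields with the same Galois closure, are allowed. The theorem in the starting files
(`tb_goodS`, for `IsGoodAVS`) excludes two nonisogenous threefolds that are not supersingular and whose
CM fields have the same Galois closure, unless these fields are Galois over `ℚ`.

`Homology Ω V` are data of motivic homology `M X n j = H_n^M(X, ℚ(j)) = CH_j(X, n - 2 j) ⊗ ℚ` (higher
Chow groups) and of `ℓ`-adic homology `E X n j = H_n(X, ℚ_ℓ(j))` of schemes `X : V` of finite type over
finite fields, with the Frobenius and the regulator. Let `𝒢` (`Generated`) be the smallest class of
schemes that contains those with the homology groups of the abelian varieties above, that is closed
under direct summands of finite sums of twists of motives, and that contains all of a closed subscheme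
`Z` of `X`, `X` and `X ∖ Z` if it contains two of them. For example, it contains all products of curves
of genus at most two, symmetric powers of such products, the varieties dominated by an abelian variety
of dimension at most five whose motive is a direct summand, and the varieties that are stratified by
such varieties.

`NC D` are data of the smooth and proper dg categories `A : D` over finite fields: the rational
Grothendieck group `K A = K_0(A) ⊗ ℚ`, the Euler form `chi A`, and the class map `ch A` to topological
periodic cyclic homology. Let `𝒟` (`NCClass`) be the smallest class of dg categories that contains
`perf_dg(X)` for all smooth and projective `X` in `𝒢` (`IsPerfCat`; the Chern character and the theorem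
of Riemann and Roch describe `K_0(X) ⊗ ℚ` with its Euler form), and all dg categories whose
noncommutative motives with rational coefficients are direct summands of finite sums of motives of
members of `𝒟` (`IsSummand`; the maps between the Grothendieck groups are given by bimodules and have
adjoints for the Euler forms). It contains, for instance, with such an `X`, the dg categories of the
perfect complexes over sheaves of Azumaya algebras on `X`, all dg categories with semiorthogonal
decompositions into members of `𝒟` (root stacks, blow-ups, families of quadrics, finite-dimensional
algebras of finite global dimension), and all components of such decompositions of members.

**Theorem** (`StrongD`). For all `A` in `𝒟` all numerically trivial classes in `K_0(A) ⊗ ℚ` are zero. In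
particular homologically trivial and numerically trivial classes agree, `V_hom = V_num` (`= 0`): the
noncommutative standard conjecture of type D holds for `A`, in the strong form that also rational
equivalence agrees with numerical equivalence.

Properties of the theory of cycles that are used for the abelian varieties `Y` (`IsChowS`,
`IsMotivic`): Poincaré duality, the formal properties of correspondences, the nilpotence of
homologically trivial correspondences (Kimura), the operation of the Frobenius endomorphism on higher
Chow groups, the vanishing of the higher rational `K`-groups of a finite field (Quillen), and the
algebraicity of the classes in `AlgS` (theorems of Tate, Markman and Ramón Marí). All Tate classes on all powers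
of `Y` are in `AlgS`: this is `Pool.Agent.R937.PG.main` (in `Pool/Agent/R937/PZ`), which is not in the
starting files. The passage from the Tate conjecture to all degrees and to the class `𝒢` is due to Soulé, Geisser, Kahn and Jannsen. The perfectness of
the intersection pairings for smooth projective `X` in `𝒢` was formalized by helper900
(`Pool/Agent/R900/PT/Pair.lean`).
-/

set_option autoImplicit false

namespace Pool.Agent.Results.MP_28af06_ag.NonOrdinaryThreefolds

open Pool.Agent.W495.TA Pool.Agent.W495.FM Pool.Agent.R937.PG Pool.Agent.R299.NCD

/-- The noncommutative standard conjecture of type D for the dg categories generated by the smooth and
projective members of the class generated by the abelian varieties of dimension at most five and by the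
products of elliptic curves, abelian surfaces and non-ordinary threefolds. -/
theorem result (p : ℕ) [Fact p.Prime] (ν : PadicAlgCl p ≃+* ℂ) (Ω : Type) [Field Ω]
    [IsAlgClosed Ω] [CharZero Ω] (V : Type) (T : Homology Ω V) (hT : IsHomology T)
    (D : Type) (N : NC D) (hN : IsNC N) (A : D)
    (hA : NCClass N (IsPerfCat N T (Generated T (IsGoodAbelianP p ν T))) A) : StrongD N A :=
  strongD hT (fun _ hX => tb_goodP hT hX) hN hA

end Pool.Agent.Results.MP_28af06_ag.NonOrdinaryThreefolds
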